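import Pool.Agent.Helper46.WP.St
import Pool.Agent.Helper46.WF.Flat

/-! Lemma W in dimension `g + k`, module REFP: the reference vectors at scale `0`. -/

set_option autoImplicit false

namespace Pool.Agent.Helper46.WP

open Finset Pool.Agent.Helper69.RK Pool.Agent.Helper61.GL Pool.Agent.Helper46.WF
open Pool.Agent.Helper92.W (fl srp DL)

noncomputable section

section
variable {p : ℕ}

theorem refp_near (l : ℕ) (y y' : Fin p → ℝ) (h : cel l y = cel l y') (i : Fin p) :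
    |(y - y') i| ≤ (1 / 2) ^ l := by
  have h1 : ⌊(2 : ℝ) ^ l * y i⌋ = ⌊(2 : ℝ) ^ l * y' i⌋ := congrFun h i
  have h2 := Int.abs_sub_lt_one_of_floor_eq_floor h1
  have h3 : (2 : ℝ) ^ l * y i - 2 ^ l * y' i = (y i - y' i) * 2 ^ l := by ring
  rw [h3, abs_mul, abs_of_pos (show (0 : ℝ) < 2 ^ l by positivity)] at h2
  rw [Pi.sub_apply, one_div, inv_pow, ← one_div, le_div_iff₀ (by positivity)]
  exact h2.le

theorem refp_two (p : ℕ) : (p : ℝ) ≤ 2 ^ p := by exact_mod_cast Nat.lt_two_pow_self.le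

theorem refp_size {x y : Fin p → ℝ} (hx : ∀ i, |x i| ≤ 32) (hy : ∀ i, |y i| ≤ 32) (s C : ℕ) (hC : p + 11 ≤ C) :
    |dp x y / 2 ^ s| ≤ 2 ^ C := by
  have h1 := dp_abs_le x y hx hy (by norm_num)
  have h2 : |dp x y| ≤ 2 ^ (p + 11) := by
    have e1 := refp_two p
    have e2 : (2 : ℝ) ^ (p + 11) = 2 ^ p * 2048 := by rw [pow_add]; norm_num
    rw [e2]
    have e3 : (0 : ℝ) ≤ 2 ^ p := by positivity
    nlinarith
  have h3 : (2 : ℝ) ^ (p + 11) ≤ 2 ^ C := pow_le_pow_right₀ (by norm_num) hC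
  rw [abs_div, abs_of_pos (show (0 : ℝ) < 2 ^ s by positivity)]
  have h4 : (1 : ℝ) ≤ 2 ^ s := one_le_pow₀ (by norm_num)
  exact (div_le_self (abs_nonneg _) h4).trans (h2.trans h3)

theorem refp_osc {x y y' : Fin p → ℝ} (hx : ∀ i, |x i| ≤ 32) (l s ρ : ℕ) (h : cel l y = cel l y') :
    |dp x y / 2 ^ s - dp x y' / 2 ^ s| * 2 ^ (l + (s + ρ + 1)) ≤ 2 ^ (ρ + p + 11) := by
  have h1 := dp_abs_le x (y - y') hx (refp_near l y y' h) (by norm_num)
  have e1 : |dp x y / 2 ^ s - dp x y' / 2 ^ s| = |dp x (y - y')| / 2 ^ s := by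
    rw [← sub_div, ← dp_sub_right, abs_div, abs_of_pos (show (0 : ℝ) < 2 ^ s by positivity)]
  have e2 : |dp x (y - y')| / 2 ^ s * 2 ^ (l + (s + ρ + 1)) = (|dp x (y - y')| * 2 ^ l) * 2 ^ (ρ + 1) := by
    have : (2 : ℝ) ^ s ≠ 0 := by positivity
    rw [pow_add, pow_add, pow_add]
    field_simp
    ring
  have h4 : |dp x (y - y')| * 2 ^ l ≤ 32 * p := by
    have h5 : |dp x (y - y')| * 2 ^ l ≤ p * (32 * (1 / 2) ^ l) * 2 ^ l :=
      mul_le_mul_of_nonneg_right h1 (by positivity)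
    refine h5.trans (le_of_eq ?_)
    have e3 : ((1 : ℝ) / 2) ^ l * 2 ^ l = 1 := by rw [← mul_pow]; norm_num
    calc (p : ℝ) * (32 * (1 / 2) ^ l) * 2 ^ l = 32 * p * ((1 / 2) ^ l * 2 ^ l) := by ring
      _ = 32 * p := by rw [e3, mul_one]
  rw [e1, e2]
  calc |dp x (y - y')| * 2 ^ l * 2 ^ (ρ + 1) ≤ (32 * p) * 2 ^ (ρ + 1) := mul_le_mul_of_nonneg_right h4 (by positivity)
    _ ≤ (32 * 2 ^ p) * 2 ^ (ρ + 1) := mul_le_mul_of_nonneg_right (by linarith [refp_two p]) (by positivity)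
    _ ≤ 2 ^ (ρ + p + 11) := by
        have e3 : (2 : ℝ) ^ (ρ + p + 11) = 2048 * (2 ^ p * 2 ^ ρ) := by ring
        have e4 : (32 * (2 : ℝ) ^ p) * 2 ^ (ρ + 1) = 64 * (2 ^ p * 2 ^ ρ) := by ring
        rw [e3, e4]
        have : (0 : ℝ) < 2 ^ p * 2 ^ ρ := by positivity
        linarith

variable {Ω : Type} [Fintype Ω]

/-- the local law is a probability -/
theorem refp_lw (μ : Ω → ℝ) (hμ : ∀ ω, 0 ≤ μ ω) (X : Ω → Fin p → ℝ) (l : ℕ) (ω : Ω) :
    ∀ ω', 0 ≤ lwP μ X l ω ω' := fun ω' => cw_nonneg μ _ hμ ω ω'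

open Classical in
/-- from the conclusion of LEMMA K to the average of the nonatomicities -/
theorem refp_avg (μ : Ω → ℝ) (hμ : ∀ ω, 0 ≤ μ ω) (hm : mass μ = 1) (z : Ω → ℝ) (U V : Ω → Fin p → ℝ)
    (c a e1 : ℝ) (ha : 0 ≤ a) (R s ρ n : ℕ) (G : (Fin p → ℝ) → (Fin p → ℝ) → ℝ)
    (hG : ∀ u v, G u v = dp v u / 2 ^ s)
    (hK : ∑ l ∈ range (n + 1 - (s + ρ + 1)), Pw μ (fun ω => DL μ z c R (l + (s + ρ + 1)) ω ∧
      ∀ x : ℝ, a ≤ Pw (cw μ (fun ω' => cel l (V ω')) ω)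
        (fun ω' => (1 / 2) ^ (l + (s + ρ + 1)) < |G (U ω) (V ω') - x|)) ≤ e1 * n) :
    ∑ ω, μ ω * ∑ j ∈ range (n + 1),
      (if j + s + (ρ + 1) ≤ n ∧ DL μ z c R (j + s + (ρ + 1)) ω then nlP μ V j ρ (U ω) ω else 0) ≤
        a * (n + 1) + e1 * n := by
  have hm' : ∑ ω, μ ω = 1 := hm
  -- nonatomic at precision `ρ`
  have key : ∀ (j : ℕ) (ω : Ω), a ≤ nlP μ V j ρ (U ω) ω → ∀ x : ℝ, a ≤ Pw (cw μ (fun ω' => cel j (V ω')) ω)
      (fun ω' => (1 / 2) ^ (j + (s + ρ + 1)) < |G (U ω) (V ω') - x|) := by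
    intro j ω h x
    set k : Fin p → ℝ := fun i => ((cel j (V ω)) i : ℝ) with hk
    set x' : ℝ := 2 ^ (j + s) * x - dp k (U ω) with hx'
    have h1 := naP_le (lwP μ V j ω) (fun ω' => frP j (V ω')) ((1 / 2) ^ ρ) (U ω) x'
    have h2 : a ≤ Pw (lwP μ V j ω) (fun ω' => (1 / 2) ^ ρ < |dp (frP j (V ω')) (U ω) - x'|) := h.trans h1
    refine h2.trans ?_
    apply Pw_mono (lwP μ V j ω) (refp_lw μ hμ V j ω)
    intro ω' hω' h3
    have h4 : cel j (V ω') = cel j (V ω) := (cw_ne_zero μ _ hω').1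
    have h5 : dp (frP j (V ω')) (U ω) = 2 ^ j * dp (V ω') (U ω) - dp k (U ω) := by
      have h6 : frP j (V ω') = (2 : ℝ) ^ j • V ω' - k := by
        funext i
        have h7 : ((cel j (V ω')) i : ℝ) = k i := by rw [hk, h4]
        show Int.fract ((2 : ℝ) ^ j * V ω' i) = 2 ^ j * V ω' i - k i
        rw [← h7, Int.fract]
        rfl
      rw [h6, dp_sub_left, dp_smul_left]
    have h8 : dp (frP j (V ω')) (U ω) - x' = 2 ^ (j + s) * (G (U ω) (V ω') - x) := by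
      have h9 : 2 ^ (j + s) * G (U ω) (V ω') = 2 ^ j * dp (V ω') (U ω) := by
        rw [hG, pow_add]
        have : (2 : ℝ) ^ s ≠ 0 := by positivity
        field_simp
      rw [h5, hx']
      linear_combination -h9
    have h10 : |dp (frP j (V ω')) (U ω) - x'| = 2 ^ (j + s) * |G (U ω) (V ω') - x| := by
      rw [h8, abs_mul, abs_of_pos (show (0 : ℝ) < 2 ^ (j + s) by positivity)]
    rw [h10] at h3
    have h11 : ((1 : ℝ) / 2) ^ (j + (s + ρ + 1)) * 2 ^ (j + s) ≤ (1 / 2) ^ ρ := by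
      have e1 : ((1 : ℝ) / 2) ^ (j + (s + ρ + 1)) * 2 ^ (j + s) = (1 / 2) ^ ρ * (1 / 2) := by
        have e2 : ((1 : ℝ) / 2) ^ (j + s) * 2 ^ (j + s) = 1 := by
          rw [← mul_pow]; norm_num
        calc ((1 : ℝ) / 2) ^ (j + (s + ρ + 1)) * 2 ^ (j + s) =
            (((1 : ℝ) / 2) ^ (j + s) * 2 ^ (j + s)) * ((1 / 2) ^ ρ * (1 / 2)) := by
              rw [show j + (s + ρ + 1) = (j + s) + (ρ + 1) by ring, pow_add, pow_succ]; ring
          _ = (1 / 2) ^ ρ * (1 / 2) := by rw [e2, one_mul]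
      rw [e1]
      have : (0 : ℝ) < (1 / 2) ^ ρ := by positivity
      linarith
    have h12 : (0 : ℝ) < 2 ^ (j + s) := by positivity
    have h13 : ((1 : ℝ) / 2) ^ (j + (s + ρ + 1)) * 2 ^ (j + s) < |G (U ω) (V ω') - x| * 2 ^ (j + s) := by
      rw [mul_comm |G (U ω) (V ω') - x|]
      exact lt_of_le_of_lt h11 h3
    exact lt_of_mul_lt_mul_right h13 h12.le
  have hle1 : ∀ (j : ℕ) (ω : Ω), μ ω ≠ 0 → nlP μ V j ρ (U ω) ω ≤ 1 := by
    intro j ω h0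
    exact naP_le_one _ (refp_lw μ hμ V j ω) (cw_sum μ _ hμ ω h0) _ _ _
  -- pointwise bound
  have h1 : ∀ (j : ℕ) (ω : Ω), μ ω * (if j + s + (ρ + 1) ≤ n ∧ DL μ z c R (j + s + (ρ + 1)) ω then
      nlP μ V j ρ (U ω) ω else 0) ≤ a * μ ω + (if (j + s + (ρ + 1) ≤ n ∧ DL μ z c R (j + s + (ρ + 1)) ω ∧
        a ≤ nlP μ V j ρ (U ω) ω) then μ ω else 0) := by
    intro j ω
    have h0 := hμ ω
    by_cases hz : μ ω = 0
    · simp [hz]
    by_cases h2 : j + s + (ρ + 1) ≤ n ∧ DL μ z c R (j + s + (ρ + 1)) ω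
    · rw [if_pos h2]
      by_cases h3 : a ≤ nlP μ V j ρ (U ω) ω
      · rw [if_pos ⟨h2.1, h2.2, h3⟩]
        have h4 := hle1 j ω hz
        have h5 : μ ω * nlP μ V j ρ (U ω) ω ≤ μ ω * 1 := mul_le_mul_of_nonneg_left h4 h0
        have h6 : 0 ≤ a * μ ω := mul_nonneg ha h0
        linarith
      · rw [if_neg (fun h => h3 h.2.2)]
        push Not at h3
        have h5 : μ ω * nlP μ V j ρ (U ω) ω ≤ μ ω * a := mul_le_mul_of_nonneg_left h3.le h0
        linarith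
    · rw [if_neg h2, if_neg (fun h => h2 ⟨h.1, h.2.1⟩)]
      have h6 : 0 ≤ a * μ ω := mul_nonneg ha h0
      linarith
  have h2 : ∑ ω, μ ω * ∑ j ∈ range (n + 1),
      (if j + s + (ρ + 1) ≤ n ∧ DL μ z c R (j + s + (ρ + 1)) ω then nlP μ V j ρ (U ω) ω else 0) ≤
      ∑ j ∈ range (n + 1), (a + Pw μ (fun ω => j + s + (ρ + 1) ≤ n ∧ DL μ z c R (j + s + (ρ + 1)) ω ∧
        a ≤ nlP μ V j ρ (U ω) ω)) := by
    have e1 : ∑ ω, μ ω * ∑ j ∈ range (n + 1),
        (if j + s + (ρ + 1) ≤ n ∧ DL μ z c R (j + s + (ρ + 1)) ω then nlP μ V j ρ (U ω) ω else 0) =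
        ∑ j ∈ range (n + 1), ∑ ω, μ ω * (if j + s + (ρ + 1) ≤ n ∧ DL μ z c R (j + s + (ρ + 1)) ω then
          nlP μ V j ρ (U ω) ω else 0) := by
      rw [Finset.sum_comm]
      apply Finset.sum_congr rfl
      intro ω _
      rw [Finset.mul_sum]
    rw [e1]
    apply Finset.sum_le_sum
    intro j _
    refine (Finset.sum_le_sum (fun ω _ => h1 j ω)).trans (le_of_eq ?_)
    rw [Finset.sum_add_distrib, ← Finset.mul_sum, hm', mul_one]
    congr 1
    unfold Pw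
    apply Finset.sum_congr rfl
    intro ω _
    split_ifs <;> rfl
  refine h2.trans ?_
  rw [Finset.sum_add_distrib, Finset.sum_const, card_range, nsmul_eq_mul]
  have h3 : ∑ j ∈ range (n + 1), Pw μ (fun ω => j + s + (ρ + 1) ≤ n ∧ DL μ z c R (j + s + (ρ + 1)) ω ∧
        a ≤ nlP μ V j ρ (U ω) ω) ≤ ∑ l ∈ range (n + 1 - (s + ρ + 1)), Pw μ (fun ω => DL μ z c R (l + (s + ρ + 1)) ω ∧
      ∀ x : ℝ, a ≤ Pw (cw μ (fun ω' => cel l (V ω')) ω)
        (fun ω' => (1 / 2) ^ (l + (s + ρ + 1)) < |G (U ω) (V ω') - x|)) := by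
    have hsub : range (n + 1 - (s + ρ + 1)) ⊆ range (n + 1) := by
      intro j hj
      rw [mem_range] at hj ⊢
      omega
    rw [← Finset.sum_subset hsub (f := fun j => Pw μ (fun ω => j + s + (ρ + 1) ≤ n ∧
      DL μ z c R (j + s + (ρ + 1)) ω ∧ a ≤ nlP μ V j ρ (U ω) ω))]
    · apply Finset.sum_le_sum
      intro j _
      apply Pw_mono μ hμ
      intro ω _ h4
      refine ⟨?_, key j ω h4.2.2⟩
      have e2 : j + (s + ρ + 1) = j + s + (ρ + 1) := by ring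
      rw [e2]
      exact h4.2.1
    · intro j _ hj
      rw [mem_range] at hj
      unfold Pw
      apply Finset.sum_eq_zero
      intro ω _
      rw [if_neg]
      intro h4
      omega
  have h4 : ((n + 1 : ℕ) : ℝ) * a = a * (n + 1) := by push_cast; ring
  linarith

/-- the entropy inequalities for LEMMA K -/
theorem refp_ent (μ : Ω → ℝ) (hμ : ∀ ω, 0 ≤ μ ω) (hm : mass μ = 1) (n : ℕ) (z : Ω → ℝ) (X Y : Ω → Fin p → ℝ)
    (f : (Fin p → ℝ) → (Fin p → ℝ) → ℝ) (η : ℝ)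
    (i1 : Hh μ (fun ω => fl n (z ω)) ≤ CH μ (fun ω => fl n (z ω)) (fun ω => (X ω, Y ω)) + η * n)
    (i2 : Hh μ (fun ω => fl n (z ω + f (X ω) (Y ω))) ≤
      CH μ (fun ω => fl n (z ω + f (X ω) (Y ω))) (fun ω => (X ω, Y ω)) + η * n)
    (i3 : Hh μ X ≤ CH μ X Y + η * n) :
    Hh μ (fun ω => fl n (z ω)) + Hh μ X + Hh μ Y ≤ Hh μ (fun ω => (fl n (z ω), X ω, Y ω)) + 2 * η * n ∧
    Hh μ (fun ω => fl n (z ω + f (X ω) (Y ω))) ≤ Hh μ (fun ω => fl n (z ω)) + η * n + 1 := by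
  constructor
  · have h1 := ch_chain μ (fun ω => (X ω, Y ω)) (fun ω => fl n (z ω)) (fun _ => ())
    have h2 := ch_chain μ Y X (fun _ => ())
    have e1 : CH μ (fun ω => ((X ω, Y ω), fl n (z ω))) (fun _ => ()) = Hh μ (fun ω => (fl n (z ω), X ω, Y ω)) := by
      apply ch_congr_left
      intro ω ω' _ _ _
      simp only [Prod.mk.injEq]
      exact and_comm
    have e2 : CH μ (fun ω => fl n (z ω)) (fun ω => ((X ω, Y ω), ())) =
        CH μ (fun ω => fl n (z ω)) (fun ω => (X ω, Y ω)) := by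
      apply ch_congr_right
      intro ω ω' _ _
      simp only [Prod.mk.injEq, and_true]
    have e3 : CH μ (fun ω => (Y ω, X ω)) (fun _ => ()) = CH μ (fun ω => (X ω, Y ω)) (fun _ => ()) := by
      apply ch_congr_left
      intro ω ω' _ _ _
      simp only [Prod.mk.injEq]
      exact and_comm
    have e4 : CH μ X (fun ω => (Y ω, ())) = CH μ X Y := by
      apply ch_congr_right
      intro ω ω' _ _
      simp only [Prod.mk.injEq, and_true]
    have e5 : Hh μ Y = CH μ Y (fun _ => ()) := rfl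
    rw [e1, e2] at h1
    rw [e3, e4] at h2
    linarith
  · have h1 := ch_tri μ hμ (fun ω => fl n (z ω + f (X ω) (Y ω))) (fun ω => fl n (z ω))
      (fun ω => (X ω, Y ω))
    have h2 : CH μ (fun ω => fl n (z ω + f (X ω) (Y ω))) (fun ω => (fl n (z ω), X ω, Y ω)) ≤
        Real.logb 2 (1 + 1) * mass μ := by
      apply ch_int μ hμ _ _ 1 (by norm_num)
      intro ω ω' _ _ h3
      simp only [Prod.mk.injEq] at h3
      obtain ⟨h4, h5, h6⟩ := h3
      have h7 : ⌊(2 : ℝ) ^ n * z ω⌋ = ⌊(2 : ℝ) ^ n * z ω'⌋ := h4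
      have h8 := Int.abs_sub_lt_one_of_floor_eq_floor h7
      rw [h5, h6]
      set g : ℝ := f (X ω') (Y ω') with hg
      show |((⌊(2 : ℝ) ^ n * (z ω + g)⌋ : ℤ) : ℝ) - ((⌊(2 : ℝ) ^ n * (z ω' + g)⌋ : ℤ) : ℝ)| ≤ 1
      have h9 := Int.floor_le ((2 : ℝ) ^ n * (z ω + g))
      have h10 := Int.lt_floor_add_one ((2 : ℝ) ^ n * (z ω + g))
      have h11 := Int.floor_le ((2 : ℝ) ^ n * (z ω' + g))
      have h12 := Int.lt_floor_add_one ((2 : ℝ) ^ n * (z ω' + g))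
      rw [abs_lt] at h8
      have h13 : ⌊(2 : ℝ) ^ n * (z ω + g)⌋ - ⌊(2 : ℝ) ^ n * (z ω' + g)⌋ < 2 := by
        have : ((⌊(2 : ℝ) ^ n * (z ω + g)⌋ - ⌊(2 : ℝ) ^ n * (z ω' + g)⌋ : ℤ) : ℝ) < 2 := by
          push_cast; nlinarith
        exact_mod_cast this
      have h14 : ⌊(2 : ℝ) ^ n * (z ω' + g)⌋ - ⌊(2 : ℝ) ^ n * (z ω + g)⌋ < 2 := by
        have : ((⌊(2 : ℝ) ^ n * (z ω' + g)⌋ - ⌊(2 : ℝ) ^ n * (z ω + g)⌋ : ℤ) : ℝ) < 2 := by
          push_cast; nlinarith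
        exact_mod_cast this
      have h15 : |⌊(2 : ℝ) ^ n * (z ω + g)⌋ - ⌊(2 : ℝ) ^ n * (z ω' + g)⌋| ≤ 1 := by
        rw [abs_le]
        constructor
        · linarith
        · linarith
      exact_mod_cast h15
    have h3 : Real.logb 2 (1 + 1) * mass μ = 1 := by
      rw [hm, show (1 : ℝ) + 1 = 2 by norm_num, Real.logb_self_eq_one (by norm_num)]
      norm_num
    have h4 : CH μ (fun ω => fl n (z ω)) (fun ω => (X ω, Y ω)) ≤ Hh μ (fun ω => fl n (z ω)) :=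
      ch_cond μ hμ _ _ _ (fun _ _ _ _ _ => rfl)
    have h5 : CH μ (fun ω => fl n (z ω + f (X ω) (Y ω))) (fun ω => (X ω, Y ω)) ≤
        Hh μ (fun ω => fl n (z ω)) + 1 := h1.trans (add_le_add h4 (h2.trans h3.le))
    refine i2.trans ?_
    refine (add_le_add_left h5 (η * n)).trans (le_of_eq ?_)
    ring

end

theorem st_REFP : Pool.Agent.Helper92.W.ST_K → ST_REFP := by
  intro hK g k c e hc hc1 he ρ
  obtain ⟨R0, hR0⟩ := hK c (e / 4) (e / 4) hc hc1 (by positivity) (by positivity) (ρ + (g + k) + 11)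
  refine ⟨R0, fun R hR => ?_⟩
  obtain ⟨η, hη, n0, hn0⟩ := hR0 R hR
  refine ⟨η / 2, by positivity, max n0 (max 1 (⌈2 / η⌉₊)), ?_⟩
  intro n s hn Ω _ μ z X Y hC
  have hn1 : n0 ≤ n := (le_max_left _ _).trans hn
  have hn2 : 1 ≤ n := (le_max_left _ _).trans ((le_max_right _ _).trans hn)
  have hn3 : ⌈2 / η⌉₊ ≤ n := (le_max_right _ _).trans ((le_max_right _ _).trans hn)
  have hn4 : 2 / η ≤ n := (Nat.le_ceil _).trans (by exact_mod_cast hn3)
  have hn5 : 2 ≤ η * n := by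
    rw [div_le_iff₀ hη] at hn4
    linarith
  have hn6 : (1 : ℝ) ≤ n := by exact_mod_cast hn2
  obtain ⟨nn, ms, zb, xb, yb, ang, i1, i2, i3, tx, ty, un⟩ := hC
  obtain ⟨q1, q2⟩ := refp_ent μ nn ms n z X Y (fun x y => dp x y / 2 ^ s) (η / 2) i1 i2 i3
  have hcond : ∀ (U : Ω → Fin (g + k) → ℝ), CH μ (fun ω => fl n (z ω + dp (X ω) (Y ω) / 2 ^ s)) U ≤
      Hh μ (fun ω => fl n (z ω)) + η * n := by
    intro U
    have h1 : CH μ (fun ω => fl n (z ω + dp (X ω) (Y ω) / 2 ^ s)) U ≤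
        Hh μ (fun ω => fl n (z ω + dp (X ω) (Y ω) / 2 ^ s)) := ch_cond μ nn _ _ _ (fun _ _ _ _ _ => rfl)
    linarith
  have hfin : ∀ t : ℝ, t ≤ e / 4 * (n + 1) + e / 4 * n → t ≤ e * n := by
    intro t ht
    nlinarith
  constructor
  · apply hfin
    apply refp_avg μ nn ms z X Y c (e / 4) (e / 4) (by positivity) R s ρ n (fun x y => dp x y / 2 ^ s)
    · intro u v
      rw [dp_comm v u]
    · refine hn0 n (s + ρ + 1) hn1 Ω (Fin (g + k) → ℝ) (Fin (g + k) → ℝ) (Fin (g + k) → ℤ) μ z X Y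
        (fun x y => dp x y / 2 ^ s) (fun l y => cel l y) nn ms zb ?_ ?_ ?_ ?_ ?_
      · intro ω ω' _ _
        exact refp_size (xb ω) (yb ω') s (ρ + (g + k) + 11) (by omega)
      · intro l ω ω' _ _ h
        exact cel_refP h
      · intro l ω0 ω ω' _ _ _ h
        exact refp_osc (xb ω0) l s ρ h
      · linarith
      · exact hcond X
  · apply hfin
    apply refp_avg μ nn ms z Y X c (e / 4) (e / 4) (by positivity) R s ρ n (fun y x => dp x y / 2 ^ s)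
    · intro u v
      rfl
    · refine hn0 n (s + ρ + 1) hn1 Ω (Fin (g + k) → ℝ) (Fin (g + k) → ℝ) (Fin (g + k) → ℤ) μ z Y X
        (fun y x => dp x y / 2 ^ s) (fun l y => cel l y) nn ms zb ?_ ?_ ?_ ?_ ?_
      · intro ω ω' _ _
        exact refp_size (xb ω') (yb ω) s (ρ + (g + k) + 11) (by omega)
      · intro l ω ω' _ _ h
        exact cel_refP h
      · intro l ω0 ω ω' _ _ _ h
        have h1 := refp_osc (x := Y ω0) (y := X ω) (y' := X ω') (yb ω0) l s ρ h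
        show |dp (X ω) (Y ω0) / 2 ^ s - dp (X ω') (Y ω0) / 2 ^ s| * 2 ^ (l + (s + ρ + 1)) ≤ 2 ^ (ρ + (g + k) + 11)
        rw [dp_comm (X ω), dp_comm (X ω')]
        exact h1
      · have e1 : Hh μ (fun ω => (fl n (z ω), Y ω, X ω)) = Hh μ (fun ω => (fl n (z ω), X ω, Y ω)) := by
          apply ch_congr_left
          intro ω ω' _ _ _
          simp only [Prod.mk.injEq]
          tauto
        rw [e1]
        linarith
      · exact hcond Y

end

end Pool.Agent.Helper46.WP
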